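import Pool.Agent.H654.Main

/-!
There are ω-models of `RCA₀ + EXT(ω*)` in which arithmetical comprehension fails; such an ω-model
can be chosen to omit any prescribed noncomputable computably enumerable set.
-/

namespace Pool.Agent.Results.MP_7fe518_lc.OmegaModelWithoutACA

open Pool.Agent.Helper617.RM Pool.Agent.Helper617.EX Pool.Agent.H654

/-- The extendibility principle `EXT(ω*)` does not imply `ACA₀`, even over ω-models: for every
computably enumerable set `E` there is an ω-model of `RCA₀ + EXT(ω*)` in which arithmetical
comprehension fails and which contains `E` only if `E` is computable. -/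
theorem result (E : Set ℕ) (hE : REPred (fun n => n ∈ E)) :
    ∃ S : Set (Set ℕ), IsModelRCA0 (omega S) ∧ ExtOmegaStar (omega S) ∧
      ¬ ArithComp (omega S) ∧ (E ∈ S → ComputablePred (fun n => n ∈ E)) :=
  omitting E hE

end Pool.Agent.Results.MP_7fe518_lc.OmegaModelWithoutACA
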